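import Pool.Agent.Saddle.S1
import Pool.Agent.Saddle.S2
import Pool.Agent.Saddle.T6
import Pool.Agent.Saddle.R2
import Pool.Agent.Saddle.P4

/-!
# MP_d5c502_an: the saddle solution in dimension 8 is the unique minimizer

The bounded saddle-shaped solution of the Allen-Cahn equation in `ℝ⁸` satisfies `|u| < 1`, and
every nonzero compactly supported perturbation strictly increases the energy, on every bounded
open set.
-/

set_option autoImplicit false

open MeasureTheory

namespace Pool.Agent.Results.MP_d5c502_an.UniqueMinimizer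

/-- The space `ℝ⁸`. -/
abbrev R8 : Type := EuclideanSpace ℝ (Fin 8)

/-- The coordinate `x_i`, `i = 0, …, 7`. -/
def coord (x : R8) (i : Fin 8) : ℝ := x i

/-- `s = |x'|`, with `x'` the first four coordinates of `x`. -/
noncomputable def s (x : R8) : ℝ :=
  Real.sqrt (coord x 0 ^ 2 + coord x 1 ^ 2 + coord x 2 ^ 2 + coord x 3 ^ 2)

/-- `t = |x''|`, with `x''` the last four coordinates of `x`. -/
noncomputable def t (x : R8) : ℝ :=
  Real.sqrt (coord x 4 ^ 2 + coord x 5 ^ 2 + coord x 6 ^ 2 + coord x 7 ^ 2)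

/-- `u` is a saddle-shaped solution: a bounded `C²` solution of `-Δu = u - u³` on `ℝ⁸` of the form
`u(x) = U(s, t)` with `U(s, t) = -U(t, s)`, positive for `s > t`. -/
structure IsSaddle (u : R8 → ℝ) : Prop where
  smooth : ContDiff ℝ 2 u
  bounded : ∃ M : ℝ, ∀ x, |u x| ≤ M
  equation : ∀ x, -(Laplacian.laplacian u x) = u x - u x ^ 3
  shape : ∃ U : ℝ → ℝ → ℝ, (∀ x, u x = U (s x) (t x)) ∧ ∀ a b, 0 ≤ a → 0 ≤ b → U a b = -U b a
  pos : ∀ x, t x < s x → 0 < u x

/-- The energy `E_Ω(v) = ∫_Ω (½|∇v|² + ¼(1 - v²)²) dx`. -/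
noncomputable def energy (Ω : Set R8) (v : R8 → ℝ) : ℝ :=
  ∫ x in Ω, (1 / 2 * ‖fderiv ℝ v x‖ ^ 2 + 1 / 4 * (1 - v x ^ 2) ^ 2)

theorem s_sq (x : R8) : s x ^ 2 = Saddle.SS x := by
  unfold s Saddle.SS
  rw [Real.sq_sqrt (by positivity), Finset.sum_filter, Fin.sum_univ_eight]
  simp [coord]

theorem t_sq (x : R8) : t x ^ 2 = Saddle.TT x := by
  unfold t Saddle.TT
  rw [Real.sq_sqrt (by positivity), Finset.sum_filter, Fin.sum_univ_eight]
  simp [coord]

theorem s_nonneg (x : R8) : 0 ≤ s x := Real.sqrt_nonneg _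

theorem t_nonneg (x : R8) : 0 ≤ t x := Real.sqrt_nonneg _

theorem s_eq (x : R8) : s x = Real.sqrt (Saddle.SS x) := by
  rw [← s_sq, Real.sqrt_sq (s_nonneg x)]

theorem t_eq (x : R8) : t x = Real.sqrt (Saddle.TT x) := by
  rw [← t_sq, Real.sqrt_sq (t_nonneg x)]

theorem IsSaddle.zero {u : R8 → ℝ} (h : IsSaddle u) {x : R8} (hx : s x = t x) : u x = 0 := by
  obtain ⟨U, hU1, hU2⟩ := h.shape
  have h1 := hU2 (s x) (t x) (s_nonneg x) (t_nonneg x)
  have h2 := hU1 x
  rw [← hx] at h1 h2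
  linarith

theorem IsSaddle.lap_eqn {u : R8 → ℝ} (h : IsSaddle u) (x : R8) :
    Saddle.lap u x + u x - u x ^ 3 = 0 := by
  have h1 := h.equation x
  rw [Saddle.laplacian_eq_lap h.smooth] at h1
  linarith

theorem IsSaddle.sol {u : R8 → ℝ} (h : IsSaddle u) : Saddle.Sol u where
  smooth := h.smooth
  eqn := h.lap_eqn
  bdd := by
    obtain ⟨M, hM⟩ := h.bounded
    exact Saddle.abs_lt_one_of_bounded h.smooth h.lap_eqn hM (h.zero (by simp [s, t, coord]))
  odd := by
    intro x y h1 h2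
    obtain ⟨U, hU1, hU2⟩ := h.shape
    have e1 : s x = t y := by rw [s_eq, t_eq, h1]
    have e2 : t x = s y := by rw [s_eq, t_eq, h2]
    rw [hU1 x, hU1 y, e1, e2]
    exact hU2 _ _ (s_nonneg y) (t_nonneg y)
  pos := by
    intro x hx
    apply h.pos
    rw [s_eq, t_eq]
    exact Real.sqrt_lt_sqrt (Saddle.TT_nonneg x) hx

theorem energy_eq (Ω : Set R8) (v : R8 → ℝ) : energy Ω v = ∫ x in Ω, Saddle.en v x := by
  unfold energy Saddle.en
  congr 1
  funext x
  ring

/-- The saddle-shaped solution of the Allen-Cahn equation in `ℝ⁸` minimizes the energy: each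
saddle-shaped solution `u` satisfies `|u| < 1`, vanishes exactly on the Simons cone, and
`E_Ω(u) < E_Ω(u + φ)` for every bounded open set `Ω` and every `φ ≠ 0` of class `C¹` with support
in `Ω`. -/
theorem result (u : R8 → ℝ) (hu : IsSaddle u) :
    (∀ x, |u x| < 1) ∧ (∀ x, u x = 0 ↔ s x = t x) ∧
      ∀ (Ω : Set R8) (φ : R8 → ℝ), IsOpen Ω → Bornology.IsBounded Ω → ContDiff ℝ 1 φ →
        tsupport φ ⊆ Ω → φ ≠ 0 → energy Ω u < energy Ω (fun x => u x + φ x) := by
  have hS := hu.sol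
  refine ⟨hS.bdd, fun x => ⟨fun hx => ?_, fun hx => hu.zero hx⟩, ?_⟩
  · by_contra hne
    rcases lt_or_gt_of_ne hne with h | h
    · have h1 : Saddle.TT (Saddle.swp x) < Saddle.SS (Saddle.swp x) := by
        rw [Saddle.TT_swp, Saddle.SS_swp, ← s_sq, ← t_sq]
        exact pow_lt_pow_left₀ h (s_nonneg x) two_ne_zero
      have h2 := hS.pos _ h1
      rw [hS.swp_odd, hx] at h2
      simp at h2
    · have h2 := hu.pos x h
      linarith
  · intro Ω φ _ hb hφ hsupp hne
    obtain ⟨B, C, hB, hC, hs⟩ := Saddle.Ex.final3 hS Saddle.Ex.su_in Saddle.Ex.sl_in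
      Saddle.Ex.pos_in Saddle.Ex.neg_in
    rw [energy_eq, energy_eq]
    exact Saddle.red_set_strict hu.smooth hS.eqn hS.bdd hS.swp_odd hB hC hs hφ hne hb hsupp

end Pool.Agent.Results.MP_d5c502_an.UniqueMinimizer
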